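import Pool.Agent.H140.HN.Main

set_option autoImplicit false

/-!
# MP_ed59c7_co: the hitting number of complete regular matroids is not polynomially bounded

Negative answer to Q1.  There are simple complete regular matroids `M` of rank `r = 4m` with
`h(M) ≥ 2 ^ m / (4m)`.

Proof.  (1) If `K` is a circuit of size `r` contained in a hyperplane `F` of a simple regular
matroid `M` of rank `r`, and not all bases meet `F` in `r - 1` elements, then `F` is a flacet
(`facet`).  (2) A basis `B` with `|B ∩ F| = r - 1` has exactly one element outside the hyperplane
`F`, and this element determines `F` among hyperplanes of that kind (`hits_le`), so a basis has full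
intersection with at most `r` hyperplanes.  (3) Let `G` be the necklace digraph with vertices
`t_i, x_i^0, x_i^1` (`i ∈ ℤ/m`) and edges `t_i → x_i^a → t_{i+1}`; let `A₀ = [I | N]` where `N` is
its edge-vertex incidence matrix, of rank `4m`.  Each of the `2^m` directed cycles of length `2m`
of `G` gives a functional vanishing on `N`, whose zero set among the columns of any totally
unimodular matrix containing `A₀` contains a circuit of size `4m`.  (4) Complete `A₀` to a maximally
totally unimodular matrix of the same rank (`exists_complete`): its matroid has at least `2^m`
flacets that are hyperplanes.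
-/

namespace Pool.Agent.Results.MP_ed59c7_co.ExponentialHittingNumber

open Pool.Agent.H140.HN

/-- **The hitting number of complete regular matroids has no polynomial bound.**  For every
polynomial `p` there is a (simple) complete regular matroid `M`, of some rank `r`, with
`h(M) > p(r)`; more precisely, for every `m ≥ 1` there is a simple complete regular matroid of rank
`r = 4m` with `h(M) ≥ 2 ^ m / (4m)`. -/
theorem result :
    (∀ p : Polynomial ℝ, ∃ (r : ℕ) (α : Type) (_ : Fintype α) (M : Matroid α),
      IsCompleteRegular r M ∧ (∀ e f, M.Indep {e, f}) ∧
        p.eval (r : ℝ) < (hittingNumber M : ℝ)) ∧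
    (∀ m : ℕ, 1 ≤ m → ∃ (α : Type) (_ : Fintype α) (M : Matroid α),
      IsCompleteRegular (4 * m) M ∧ (∀ e f, M.Indep {e, f}) ∧
        2 ^ m ≤ 4 * m * hittingNumber M) :=
  ⟨superpolynomial, exponential⟩

end Pool.Agent.Results.MP_ed59c7_co.ExponentialHittingNumber
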